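import Pool.Agent.U565.FE.Flip

set_option autoImplicit false

/-!
# All continuous solutions of `f (x + f x) = f x + f (f x)`

The continuous solutions are the linear maps `x ↦ a x` and the maps equal to `a x` for `x ≥ 0` and
to `b x` for `x < 0`, with `a, b ≥ 0`. No differentiability is assumed.
-/

namespace Pool.Agent.Results.MP_12983e_an.Classification

/-- A function `f : ℝ → ℝ` is continuous and satisfies `f (x + f x) = f x + f (f x)` for all real
`x` if and only if it is linear, or there are `a, b ≥ 0` with `f x = a x` for `x ≥ 0` and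
`f x = b x` for `x < 0`. -/
theorem result (f : ℝ → ℝ) :
    (Continuous f ∧ ∀ x, f (x + f x) = f x + f (f x)) ↔
      ((∃ a : ℝ, ∀ x, f x = a * x) ∨
        ∃ a b : ℝ, 0 ≤ a ∧ 0 ≤ b ∧ ∀ x, f x = if 0 ≤ x then a * x else b * x) := by
  constructor
  · rintro ⟨hc, he⟩
    obtain ⟨a, b, hab, hf⟩ := Pool.Agent.U565.FE.classify ⟨hc, he⟩
    rcases hab with e | ⟨ha, hb⟩
    · exact Or.inl ⟨a, fun x => by rw [hf x, ← e]; split_ifs <;> rfl⟩
    · exact Or.inr ⟨a, b, ha, hb, hf⟩
  · rintro (⟨a, hf⟩ | ⟨a, b, ha, hb, hf⟩)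
    · have := Pool.Agent.U565.FE.classify_conv (f := f) a a (Or.inl rfl)
        (fun x => by rw [hf x]; split_ifs <;> rfl)
      exact ⟨this.cont, this.eq⟩
    · have := Pool.Agent.U565.FE.classify_conv (f := f) a b (Or.inr ⟨ha, hb⟩) hf
      exact ⟨this.cont, this.eq⟩

end Pool.Agent.Results.MP_12983e_an.Classification
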